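import Pool.Agent.PRAR.D.Def

/-! # Section 3: the blow-up -/

set_option autoImplicit false
set_option linter.unusedSectionVars false

open scoped Classical

noncomputable section

namespace PRAR

variable {ι : Type} [Fintype ι] {F : Type} [Field F] [Fintype F]
variable {Y V : Type} [AddCommGroup Y] [Module F Y] [Fintype Y] [AddCommGroup V] [Module F V]
  [Fintype V]

/-- The vertex `α` of the grid, zero off `I`. -/
def da_pt (I : Finset ι) {b : ℕ} (yb : ι → (Fin b → Y)) (α : {i // i ∈ I} → Fin b) : ι → Y :=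
  fun i => if h : i ∈ I then yb i (α ⟨i, h⟩) else 0

theorem da_blow (I : Finset ι) (b : ℕ) (f : (ι → Y) → V) (yb : ι → (Fin b → Y))
    (α : {i // i ∈ I} → Fin b) : blow I b f yb α = f (da_pt I yb α) := rfl

theorem da_pt_mem (I : Finset ι) {b : ℕ} (yb : ι → (Fin b → Y)) (α : {i // i ∈ I} → Fin b)
    {i : ι} (hi : i ∈ I) : da_pt I yb α i = yb i (α ⟨i, hi⟩) := by
  unfold da_pt
  rw [dif_pos hi]

theorem da_pt_update (I : Finset ι) {b : ℕ} (yb : ι → (Fin b → Y)) (α : {i // i ∈ I} → Fin b)
    {i : ι} (hi : i ∈ I) (u : Fin b → Y) :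
    da_pt I (Function.update yb i u) α = Function.update (da_pt I yb α) i (u (α ⟨i, hi⟩)) := by
  funext j
  by_cases hj : j = i
  · subst hj
    rw [da_pt_mem I _ α hi, Function.update_self, Function.update_self]
  · rw [Function.update_of_ne hj]
    unfold da_pt
    rw [Function.update_of_ne hj]

theorem da_pt_update_off (I : Finset ι) {b : ℕ} (yb : ι → (Fin b → Y))
    (α : {i // i ∈ I} → Fin b) {i : ι} (hi : i ∉ I) (u : Fin b → Y) :
    da_pt I (Function.update yb i u) α = da_pt I yb α := by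
  funext j
  unfold da_pt
  by_cases hj : j ∈ I
  · have hne : j ≠ i := fun h => hi (h ▸ hj)
    rw [dif_pos hj, dif_pos hj, Function.update_of_ne hne]
  · rw [dif_neg hj, dif_neg hj]

theorem blow_mlin {I : Finset ι} {f : (ι → Y) → V} (hf : MLin F I f) (b : ℕ) :
    MLin F I (blow I b f) := by
  refine ⟨?_, ?_, ?_⟩
  · intro i hi yb u v
    funext α
    rw [Pi.add_apply, da_blow, da_blow, da_blow, da_pt_update I yb α hi, da_pt_update I yb α hi,
      da_pt_update I yb α hi, Pi.add_apply, hf.add i hi]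
  · intro i hi yb c u
    funext α
    rw [Pi.smul_apply, da_blow, da_blow, da_pt_update I yb α hi, da_pt_update I yb α hi,
      Pi.smul_apply, hf.smul i hi]
  · intro i hi yb u
    funext α
    rw [da_blow, da_blow, da_pt_update_off I yb α hi]

/-- Extension of the labels by `0` off `I`. -/
def da_ext (I : Finset ι) {b : ℕ} (hb : 1 ≤ b) (α : {i // i ∈ I} → Fin b) : ι → Fin b :=
  fun i => if h : i ∈ I then α ⟨i, h⟩ else ⟨0, hb⟩

theorem da_ext_mem (I : Finset ι) {b : ℕ} (hb : 1 ≤ b) (α : {i // i ∈ I} → Fin b) {i : ι}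
    (hi : i ∈ I) : da_ext I hb α i = α ⟨i, hi⟩ := by
  unfold da_ext
  rw [dif_pos hi]

theorem blow_prob {I : Finset ι} {f : (ι → Y) → V} (hf : MLin F I f) (b : ℕ) (hb : 1 ≤ b) :
    prob (fun yb : ι → (Fin b → Y) => blow I b f yb = 0) = ZU f b := by
  unfold ZU
  apply prob_congr
  intro yb
  constructor
  · intro h α
    have h1 := congrFun h (fun i => α i.1)
    rw [da_blow] at h1
    rw [← Pi.zero_apply (M := fun _ => V) (fun i : {i // i ∈ I} => α i.1), ← h1]
    exact hf.congr fun i hi => (da_pt_mem I yb (fun i => α i.1) hi).symm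
  · intro h
    funext α
    rw [da_blow, Pi.zero_apply, ← h (da_ext I hb α)]
    refine hf.congr fun i hi => ?_
    rw [da_pt_mem I yb α hi, da_ext_mem I hb α hi]

/-- Grids with `3 b` copies as grids of grids. -/
def da_e (b : ℕ) : (ι → Fin 3 → Fin b → Y) ≃ (ι → Fin (3 * b) → Y) :=
  Equiv.piCongrRight fun _ =>
    (Equiv.curry (Fin 3) (Fin b) Y).symm.trans (Equiv.arrowCongr finProdFinEquiv (Equiv.refl Y))

theorem da_e_apply (b : ℕ) (yb : ι → Fin 3 → Fin b → Y) (i : ι) (x : Fin (3 * b)) :
    da_e b yb i x = yb i (finProdFinEquiv.symm x).1 (finProdFinEquiv.symm x).2 := rfl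

theorem blow_ZU {I : Finset ι} {f : (ι → Y) → V} (hf : MLin F I f) (b : ℕ) (hb : 1 ≤ b) :
    ZU (blow I b f) 3 = ZU f (3 * b) := by
  unfold ZU
  rw [← prob_equiv (da_e b)]
  apply prob_congr
  intro yb
  constructor
  · intro h α
    have h1 := congrFun (h fun i => (finProdFinEquiv.symm (α i)).1)
      (fun i => (finProdFinEquiv.symm (α i.1)).2)
    rw [da_blow, Pi.zero_apply] at h1
    rw [← h1]
    refine hf.congr fun i hi => ?_
    rw [da_pt_mem I _ _ hi, da_e_apply]
  · intro h γ
    funext δ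
    rw [da_blow, Pi.zero_apply, ← h fun i => finProdFinEquiv (γ i, da_ext I hb δ i)]
    refine hf.congr fun i hi => ?_
    rw [da_pt_mem I _ _ hi, da_e_apply, Equiv.symm_apply_apply, da_ext_mem I hb δ hi]

theorem blow_plc {I : Finset ι} {f : (ι → Y) → V} (hf : MLin F I f) (hI : I.Nonempty) {b : ℕ}
    (α : {i // i ∈ I} → Fin b) (y : ι → Y) : blow I b f (plc I α y) = Pi.single α (f y) := by
  funext β
  rw [da_blow]
  by_cases hβ : β = α
  · subst hβ
    rw [Pi.single_eq_same]
    refine hf.congr fun i hi => ?_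
    rw [da_pt_mem I _ _ hi]
    unfold plc
    rw [dif_pos hi, if_pos rfl]
  · rw [Pi.single_eq_of_ne hβ]
    obtain ⟨⟨i, hi⟩, hne⟩ := Function.ne_iff.1 hβ
    refine hf.eq_zero_of_coord hi ?_
    rw [da_pt_mem I _ _ hi]
    unfold plc
    rw [dif_pos hi, if_neg hne]

/-- The value of the placement in one slot. -/
def da_g (I : Finset ι) {b : ℕ} (α : {i // i ∈ I} → Fin b) (i : ι) (u : Y) : Fin b → Y :=
  fun c => if h : i ∈ I then (if c = α ⟨i, h⟩ then u else 0) else 0

theorem da_plc_update (I : Finset ι) {b : ℕ} (α : {i // i ∈ I} → Fin b) (y : ι → Y) (i : ι)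
    (u : Y) : plc I α (Function.update y i u) = Function.update (plc I α y) i (da_g I α i u) := by
  funext j
  by_cases hj : j = i
  · subst hj
    rw [Function.update_self]
    funext c
    unfold plc da_g
    rw [Function.update_self]
  · rw [Function.update_of_ne hj]
    funext c
    unfold plc
    rw [Function.update_of_ne hj]

theorem da_g_add (I : Finset ι) {b : ℕ} (α : {i // i ∈ I} → Fin b) (i : ι) (u v : Y) :
    da_g I α i (u + v) = da_g I α i u + da_g I α i v := by
  funext c
  rw [Pi.add_apply]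
  unfold da_g
  split_ifs <;> simp

theorem da_g_smul (I : Finset ι) {b : ℕ} (α : {i // i ∈ I} → Fin b) (i : ι) (c : F) (u : Y) :
    da_g I α i (c • u) = c • da_g I α i u := by
  funext d
  rw [Pi.smul_apply]
  unfold da_g
  split_ifs <;> simp

theorem MLin.plc {I J : Finset ι} (hJ : J ⊆ I) {b : ℕ} {p : (ι → (Fin b → Y)) → V}
    (hp : MLin F J p) (α : {i // i ∈ I} → Fin b) : MLin F J (fun y => p (plc I α y)) := by
  refine ⟨?_, ?_, ?_⟩
  · intro i hi y u v
    rw [da_plc_update, da_plc_update, da_plc_update, da_g_add, hp.add i hi]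
  · intro i hi y c u
    rw [da_plc_update, da_plc_update, da_g_smul, hp.smul i hi]
  · intro i hi y u
    rw [da_plc_update, hp.off i hi]

end PRAR
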