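import Pool.Agent.PRAR.D.Def

/-! # Section 3: pressures -/

set_option autoImplicit false
set_option linter.unusedSectionVars false

open scoped Classical

noncomputable section

namespace PRAR

variable {ι : Type} [Fintype ι] {F : Type} [Field F] [Fintype F]
variable {Y V : Type} [AddCommGroup Y] [Module F Y] [Fintype Y] [AddCommGroup V] [Module F V]
  [Fintype V]

theorem db_prob_pos {α : Type*} [Fintype α] {p : α → Prop} (x : α) (h : p x) : 0 < prob p := by
  unfold prob
  apply div_pos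
  · have : 0 < (Finset.univ.filter p).card := Finset.card_pos.2 ⟨x, by simp [h]⟩
    exact_mod_cast this
  · have : 0 < Fintype.card α := Fintype.card_pos_iff.2 ⟨x⟩
    exact_mod_cast this

theorem ZU_pos {I : Finset ι} (hI : I.Nonempty) {f : (ι → Y) → V} (hf : MLin F I f) (b : ℕ)
    (hb : 1 ≤ b) : 0 < ZU f b := by
  obtain ⟨i, hi⟩ := hI
  unfold ZU
  refine db_prob_pos (fun _ _ => (0 : Y)) ?_
  intro α
  exact hf.eq_zero_of_coord hi rfl

theorem ZU_eq_rpow {I : Finset ι} (hI : I.Nonempty) {f : (ι → Y) → V} (hf : MLin F I f) (b : ℕ)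
    (hb : 1 ≤ b) : ZU f b = (qq F) ^ (-((b : ℝ) ^ I.card * hh F I f b)) := by
  have h0 := ZU_pos hI hf b hb
  have hq := one_lt_qq F
  have hb0 : (0 : ℝ) < (b : ℝ) := by exact_mod_cast hb
  have hb1 : ((b : ℝ) ^ I.card) ≠ 0 := (pow_pos hb0 _).ne'
  have h1 : -((b : ℝ) ^ I.card * hh F I f b) = Real.logb (qq F) (ZU f b) := by
    unfold hh
    field_simp
  rw [h1, Real.rpow_logb (qq_pos F) hq.ne' h0]

/-- Off `I` the copy may be chosen arbitrarily. -/
theorem db_off {I : Finset ι} {f : (ι → Y) → V} (hf : MLin F I f) {n : ℕ} [NeZero n]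
    (yb : ι → Fin n → Y)
    (h : ∀ β : ι → Fin n, (∀ i, i ∉ I → β i = 0) → f (fun i => yb i (β i)) = 0) :
    ∀ β : ι → Fin n, f (fun i => yb i (β i)) = 0 := by
  intro β
  have h1 := h (fun i => if i ∈ I then β i else 0) (fun i hi => by simp [hi])
  rw [← h1]
  refine hf.congr fun i hi => ?_
  simp [hi]

theorem ZU_scale {I : Finset ι} {f : (ι → Y) → V} (hf : MLin F I f) (b e : ℕ) (hb : 1 ≤ b)
    (he : 1 ≤ e) : ZU f b ^ (e ^ I.card) ≤ ZU f (e * b) := by
  haveI : NeZero e := ⟨by omega⟩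
  have h1 := sid (X := Fin b → Y) (fun x : ι → Fin b → Y => ∀ α : ι → Fin b,
    f (fun i => x i (α i)) = 0) I e
  refine h1.trans ?_
  unfold ZU
  have h2 : prob (fun yb : ι → Fin e → Fin b → Y => ∀ β : ι → Fin e, (∀ i, i ∉ I → β i = 0) →
      ∀ α : ι → Fin b, f (fun i => yb i (β i) (α i)) = 0) ≤
      prob (fun yb : ι → Fin e → Fin b → Y => ∀ γ : ι → Fin (e * b),
        f (fun i => yb i (finProdFinEquiv.symm (γ i)).1 (finProdFinEquiv.symm (γ i)).2) = 0) := by
    refine prob_mono fun yb h γ => ?_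
    have h3 := h (fun i => if i ∈ I then (finProdFinEquiv.symm (γ i)).1 else 0)
      (fun i hi => by simp [hi]) (fun i => (finProdFinEquiv.symm (γ i)).2)
    rw [← h3]
    refine hf.congr fun i hi => ?_
    simp [hi]
  refine h2.trans (le_of_eq ?_)
  let E : (ι → Fin e → Fin b → Y) ≃ (ι → Fin (e * b) → Y) :=
    Equiv.piCongrRight fun _ => (Equiv.curry (Fin e) (Fin b) Y).symm.trans
      (Equiv.arrowCongr finProdFinEquiv (Equiv.refl Y))
  exact prob_equiv E (fun yb : ι → Fin (e * b) → Y => ∀ γ : ι → Fin (e * b),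
    f (fun i => yb i (γ i)) = 0)

theorem hh_scale {I : Finset ι} (hI : I.Nonempty) {f : (ι → Y) → V} (hf : MLin F I f) (b e : ℕ)
    (hb : 1 ≤ b) (he : 1 ≤ e) : hh F I f (e * b) ≤ hh F I f b := by
  have h0 := ZU_pos hI hf b hb
  have h1 := ZU_scale hf b e hb he
  have hq := one_lt_qq F
  have hb0 : (0 : ℝ) < (b : ℝ) := by exact_mod_cast hb
  have he0 : (0 : ℝ) < (e : ℝ) := by exact_mod_cast he
  have h2 : Real.logb (qq F) (ZU f b ^ (e ^ I.card)) ≤ Real.logb (qq F) (ZU f (e * b)) :=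
    Real.logb_le_logb_of_le hq (pow_pos h0 _) h1
  rw [Real.logb_pow] at h2
  push_cast at h2
  unfold hh
  push_cast
  rw [mul_pow, div_le_div_iff₀ (by positivity) (by positivity)]
  have h3 : (0 : ℝ) < (b : ℝ) ^ I.card := by positivity
  nlinarith [mul_le_mul_of_nonneg_right h2 h3.le]

theorem hh_nonneg (I : Finset ι) (f : (ι → Y) → V) (b : ℕ) : 0 ≤ hh F I f b := by
  unfold hh
  have h1 : Real.logb (qq F) (ZU f b) ≤ 0 :=
    Real.logb_nonpos (one_lt_qq F) (prob_nonneg _) (prob_le_one _)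
  exact div_nonneg (by linarith) (by positivity)

/-- A map with target `V` vanishes with probability at least `q ^ (-dim V)`. -/
theorem db_prob_ge {I : Finset ι} (hI : I.Nonempty) {f : (ι → Y) → V} (hf : MLin F I f) :
    (qq F)⁻¹ ^ (Module.finrank F V) ≤ prob (fun y => f y = 0) := by
  let B := Module.finBasis F V
  have h1 : ∏ k ∈ (Finset.univ : Finset (Fin (Module.finrank F V))),
      prob (fun y => B.coord k (f y) = 0) ≤
      prob (fun y => ∀ k ∈ (Finset.univ : Finset (Fin (Module.finrank F V))),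
        B.coord k (f y) = 0) :=
    corr_prod Finset.univ (W := fun k y => B.coord k (f y) = 0) fun k _ => (hf.comp (B.coord k)).sl
  have hq0 := qq_pos F
  have h2 : (qq F)⁻¹ ^ (Module.finrank F V) ≤
      ∏ k ∈ (Finset.univ : Finset (Fin (Module.finrank F V))),
        prob (fun y => B.coord k (f y) = 0) := by
    have h3 : (qq F)⁻¹ ^ (Module.finrank F V) =
        ∏ k ∈ (Finset.univ : Finset (Fin (Module.finrank F V))), (qq F)⁻¹ := by
      rw [Finset.prod_const, Finset.card_univ, Fintype.card_fin]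
    rw [h3]
    refine Finset.prod_le_prod (fun _ _ => by positivity) fun k _ => ?_
    exact prob_form_ge hI (hf.comp (B.coord k))
  refine h2.trans (h1.trans (prob_mono fun y hy => ?_))
  exact B.forall_coord_eq_zero_iff.1 fun k => hy k (Finset.mem_univ k)

theorem hh_le {I : Finset ι} (hI : I.Nonempty) {f : (ι → Y) → V} (hf : MLin F I f) (b : ℕ)
    (hb : 1 ≤ b) : hh F I f b ≤ Module.finrank F V := by
  haveI : NeZero b := ⟨by omega⟩
  have hq := one_lt_qq F
  have hq0 := qq_pos F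
  have hb0 : (0 : ℝ) < (b : ℝ) := by exact_mod_cast hb
  have h1 := sid (X := Y) (fun y : ι → Y => f y = 0) I b
  have h2 : prob (fun yb : ι → Fin b → Y => ∀ β : ι → Fin b, (∀ i, i ∉ I → β i = 0) →
      f (fun i => yb i (β i)) = 0) ≤ ZU f b := by
    unfold ZU
    exact prob_mono fun yb h => db_off hf yb h
  have h3 : ((qq F)⁻¹ ^ (Module.finrank F V)) ^ (b ^ I.card) ≤ ZU f b := by
    refine le_trans ?_ (h1.trans h2)
    gcongr
    exact db_prob_ge hI hf
  have h4 : Real.logb (qq F) (((qq F)⁻¹ ^ (Module.finrank F V)) ^ (b ^ I.card)) ≤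
      Real.logb (qq F) (ZU f b) :=
    Real.logb_le_logb_of_le hq (by positivity) h3
  rw [Real.logb_pow, Real.logb_pow, Real.logb_inv, Real.logb_self_eq_one hq] at h4
  push_cast at h4
  unfold hh
  rw [div_le_iff₀ (by positivity)]
  nlinarith

theorem pigeon {I : Finset ι} (hI : I.Nonempty) {f : (ι → Y) → V} (hf : MLin F I f) (M i0 L : ℕ)
    (hM : 1 ≤ M) (hL : 1 ≤ L) : ∃ i, i0 ≤ i ∧ i < i0 + L ∧
      hh F I f (M * 3 ^ i) - hh F I f (3 * (M * 3 ^ i)) ≤ (Module.finrank F V : ℝ) / L := by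
  have hL0 : (0 : ℝ) < (L : ℝ) := by exact_mod_cast hL
  by_contra hcon
  push Not at hcon
  have h1 : ∀ k ∈ Finset.range L, (Module.finrank F V : ℝ) / L <
      hh F I f (M * 3 ^ (i0 + k)) - hh F I f (M * 3 ^ (i0 + (k + 1))) := by
    intro k hk
    have h2 := hcon (i0 + k) (by omega) (by have := Finset.mem_range.1 hk; omega)
    have h3 : 3 * (M * 3 ^ (i0 + k)) = M * 3 ^ (i0 + (k + 1)) := by ring
    rw [h3] at h2
    exact h2
  have h4 : ∑ _k ∈ Finset.range L, (Module.finrank F V : ℝ) / L <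
      ∑ k ∈ Finset.range L,
        (hh F I f (M * 3 ^ (i0 + k)) - hh F I f (M * 3 ^ (i0 + (k + 1)))) :=
    Finset.sum_lt_sum_of_nonempty (Finset.nonempty_range_iff.2 (by omega)) h1
  rw [Finset.sum_range_sub' (fun k => hh F I f (M * 3 ^ (i0 + k))), Finset.sum_const,
    Finset.card_range, nsmul_eq_mul, mul_div_cancel₀ _ hL0.ne'] at h4
  have h5 := hh_le hI hf (M * 3 ^ (i0 + 0)) (Nat.mul_pos hM (by positivity))
  have h6 := hh_nonneg (F := F) I f (M * 3 ^ (i0 + L))
  linarith

end PRAR
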