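import Pool.Agent.PRAR.Ba

/-! # Section 3: linear algebra and D(I) modulo a subspace -/

set_option autoImplicit false
set_option linter.unusedSectionVars false

open scoped Classical

noncomputable section

namespace PRAR

variable {ι : Type} [Fintype ι] {F : Type} [Field F] [Fintype F]
variable {Y V : Type} [AddCommGroup Y] [Module F Y] [Fintype Y] [AddCommGroup V] [Module F V]
  [Fintype V]

theorem single_finrank {α : Type} [Fintype α] [DecidableEq α] (E : Submodule F (α → V)) :
    ∑ x : α, Module.finrank F (E.comap (LinearMap.single F (fun _ : α => V) x)) ≤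
      Module.finrank F E := by
  have : Module.Finite F V := Module.Finite.of_finite
  have : Module.Finite F (α → V) := inferInstance
  have : ∀ x : α, Module.Finite F (E.comap (LinearMap.single F (fun _ : α => V) x)) :=
    fun x => inferInstance
  rw [← Module.finrank_pi_fintype]
  have hsum : ∀ v : ((x : α) → (E.comap (LinearMap.single F (fun _ : α => V) x))),
      (∑ x, LinearMap.single F (fun _ : α => V) x (v x : V)) = fun x => (v x : V) := by
    intro v
    funext x
    rw [Finset.sum_apply, Finset.sum_eq_single x]
    · simp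
    · intro b _ hb
      simp [LinearMap.single_apply, Pi.single_eq_of_ne hb.symm]
    · intro h
      exact absurd (Finset.mem_univ x) h
  have hmem : ∀ v : ((x : α) → (E.comap (LinearMap.single F (fun _ : α => V) x))),
      (fun x => (v x : V)) ∈ E := by
    intro v
    rw [← hsum v]
    exact Submodule.sum_mem _ fun x _ => (v x).2
  let Φ : ((x : α) → (E.comap (LinearMap.single F (fun _ : α => V) x))) →ₗ[F] E :=
    { toFun := fun v => ⟨fun x => (v x : V), hmem v⟩
      map_add' := fun v w => rfl
      map_smul' := fun c v => rfl }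
  apply LinearMap.finrank_le_finrank_of_injective (f := Φ)
  intro v w h
  funext x
  apply Subtype.ext
  have h1 := congrArg (fun z : E => (z : α → V) x) h
  exact h1

theorem dd_mod {I : Finset ι} {C : ℕ} (hD : DD F I C) {f : (ι → Y) → V} (hf : MLin F I f)
    (E : Submodule F V) (a : ℕ) (h : (qq F)⁻¹ ^ a ≤ prob (fun y : ι → Y => f y ∈ E)) :
    ∃ (E2 : Submodule F V) (P : Fam ι F Y), Module.finrank F E2 ≤ Module.finrank F E + C * (a + 1) ∧
      (∀ k, P.ty k ⊂ I) ∧ P.card ≤ C * (a + 1) ∧ ∀ y ∈ P.zer, f y ∈ E2 := by
  have : Module.Finite F V := Module.Finite.of_finite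
  letI : Fintype (V ⧸ E) := Fintype.ofFinite _
  have h0 : (qq F)⁻¹ ^ a ≤ prob (fun y : ι → Y => E.mkQ (f y) = 0) := by
    refine h.trans (prob_mono fun y hy => ?_)
    rw [Submodule.mkQ_apply, Submodule.Quotient.mk_eq_zero]
    exact hy
  obtain ⟨r, hr, g, hg, hfg⟩ := hD Y (V ⧸ E) (fun y => E.mkQ (f y)) (hf.comp E.mkQ) a h0
  choose J hJne hJI p v hp hv hgs using hg
  have hw : ∀ s : Fin r, ∃ w : V, E.mkQ w = v s 0 := fun s => E.mkQ_surjective _
  choose w hw using hw
  let P : Fam ι F Y :=
    { κ := {s : Fin r // J s ≠ I}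
      fin := inferInstance
      ty := fun k => J k.1
      p := fun k => p k.1
      lin := fun k => hp k.1
      ne := fun k => hJne k.1 }
  refine ⟨E ⊔ Submodule.span F (Set.range w), P, ?_, ?_, ?_, ?_⟩
  · refine (Submodule.finrank_add_le_finrank_add_finrank _ _).trans ?_
    have h1 : Module.finrank F (Submodule.span F (Set.range w)) ≤ r := by
      have h2 := finrank_range_le_card (R := F) w
      rw [Fintype.card_fin] at h2
      exact h2
    omega
  · intro k
    exact (hJI k.1).ssubset_of_ne k.2
  · have h1 : P.card ≤ Fintype.card (Fin r) := by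
      unfold Fam.card
      exact Fintype.card_subtype_le _
    rw [Fintype.card_fin] at h1
    omega
  · intro y hy
    have hy0 : ∀ s : Fin r, J s ≠ I → p s y = 0 := fun s hs => hy ⟨s, hs⟩
    obtain ⟨u, hu⟩ : ∃ u : V, u = ∑ s, p s y • w s := ⟨_, rfl⟩
    have h1 : E.mkQ (f y) = E.mkQ u := by
      have h5 : E.mkQ (f y) = ∑ s, g s y := hfg y
      rw [h5, hu, map_sum]
      refine Finset.sum_congr rfl fun s _ => ?_
      rw [hgs s y, map_smul, hw s]
      by_cases hs : J s = I
      · have h2 : v s y = v s 0 := (hv s).congr (by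
          intro i hi
          rw [hs, Finset.sdiff_self] at hi
          exact absurd hi (Finset.notMem_empty i))
        rw [h2]
      · rw [hy0 s hs, zero_smul, zero_smul]
    have h2 : f y - u ∈ E := by
      rw [Submodule.mkQ_apply, Submodule.mkQ_apply] at h1
      exact (Submodule.Quotient.eq E).1 h1
    have h3 : u ∈ Submodule.span F (Set.range w) := by
      rw [hu]
      exact Submodule.sum_mem _ fun s _ => Submodule.smul_mem _ _
        (Submodule.subset_span ⟨s, rfl⟩)
    have h4 : f y = (f y - u) + u := by abel
    rw [h4]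
    exact Submodule.add_mem _ (Submodule.mem_sup_left h2) (Submodule.mem_sup_right h3)

end PRAR
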