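import Pool.Agent.PRAR.Ba

/-! # Section 3: definitions -/

set_option autoImplicit false
set_option linter.unusedSectionVars false

open scoped Classical

noncomputable section

namespace PRAR

variable {ι : Type} [Fintype ι] {F : Type} [Field F] [Fintype F]
variable {Y V : Type} [AddCommGroup Y] [Module F Y] [Fintype Y] [AddCommGroup V] [Module F V]
  [Fintype V]

/-- The blow-up of `f` with `b` copies in the slots of `I`. -/
def blow (I : Finset ι) (b : ℕ) (f : (ι → Y) → V) :
    (ι → (Fin b → Y)) → (({i // i ∈ I} → Fin b) → V) :=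
  fun yb α => f (fun i => if h : i ∈ I then yb i (α ⟨i, h⟩) else 0)

/-- Placement of `y` in the copies `α`. -/
def plc (I : Finset ι) {b : ℕ} (α : {i // i ∈ I} → Fin b) (y : ι → Y) : ι → (Fin b → Y) :=
  fun i c => if h : i ∈ I then (if c = α ⟨i, h⟩ then y i else 0) else 0

/-- Normalised pressure of the grid with `b` copies. -/
def hh (F : Type) [Field F] [Fintype F] {Y V : Type} [AddCommGroup Y] [Fintype Y]
    [AddCommGroup V] {ι : Type} [Fintype ι] (I : Finset ι) (f : (ι → Y) → V) (b : ℕ) : ℝ :=
  - Real.logb (qq F) (ZU f b) / (b : ℝ) ^ I.card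

end PRAR
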