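import Pool.Agent.PRAR.D.A
import Pool.Agent.PRAR.D.B
import Pool.Agent.PRAR.D.C

/-! # Lemma Dec -/

set_option autoImplicit false
set_option linter.unusedSectionVars false

open scoped Classical

noncomputable section

namespace PRAR

/-- The family of placed forms. -/
def dz_fam {ι : Type} [Fintype ι] {F : Type} [Field F] {Y : Type} [AddCommGroup Y] [Module F Y]
    [Fintype Y] [Fintype F]
    (I : Finset ι) {b : ℕ} (α : {i // i ∈ I} → Fin b) (P : Fam ι F (Fin b → Y))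
    (h : ∀ k, P.ty k ⊆ I) : Fam ι F Y where
  κ := P.κ
  fin := P.fin
  ty := P.ty
  p := fun k y => P.p k (plc I α y)
  lin := fun k => MLin.plc (h k) (P.lin k) α
  ne := P.ne

/-- Some coordinate space is small. -/
theorem dz_small {F : Type} [Field F] [Fintype F] {V : Type} [AddCommGroup V] [Module F V]
    [Fintype V] {α : Type} [Fintype α] [DecidableEq α] [Nonempty α] (E : Submodule F (α → V)) :
    ∃ x : α, (Module.finrank F (E.comap (LinearMap.single F (fun _ : α => V) x)) : ℝ) ≤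
      (Module.finrank F E : ℝ) / Fintype.card α := by
  have h := single_finrank (F := F) E
  have h' : ∑ x : α, (Module.finrank F (E.comap (LinearMap.single F (fun _ : α => V) x)) : ℝ) ≤
      ∑ _x : α, (Module.finrank F E : ℝ) / Fintype.card α := by
    rw [Finset.sum_const, Finset.card_univ, nsmul_eq_mul]
    have hc : (Fintype.card α : ℝ) ≠ 0 := by
      exact_mod_cast Fintype.card_ne_zero
    rw [mul_div_cancel₀ _ hc]
    exact_mod_cast h
  obtain ⟨x, _, hx⟩ := Finset.exists_le_of_sum_le Finset.univ_nonempty h'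
  exact ⟨x, hx⟩

theorem dz_pow3 (n : ℕ) : n ≤ 3 ^ n := (Nat.lt_pow_self (by norm_num : 1 < 3)).le

/-- The estimate for the dimension. -/
theorem dz_est (C' L m ρ E0 ss : ℕ) (s h D κ Bm : ℝ) (hE0 : 1 ≤ E0) (hss : 1 ≤ ss)
    (hL : L = 8 * C' * 3 ^ m * ρ * E0 + 1) (hs : s ≤ (ρ * ss : ℝ))
    (hBm : (8 * C' * E0 : ℝ) ≤ Bm) (hBm0 : 0 < Bm)
    (hκ : κ ≤ 3 ^ m * Bm * (s / L)) (hh : h < s - (ss : ℝ) / E0)
    (hD : D ≤ Bm * h + C' * (κ + 1)) :
    D / Bm ≤ s - ((ss : ℝ) / E0) / 2 := by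
  have hE : (0 : ℝ) < E0 := by exact_mod_cast hE0
  have hS1 : (1 : ℝ) ≤ ss := by exact_mod_cast hss
  set τ : ℝ := (ss : ℝ) / E0 with hτ
  have hτE : τ * E0 = ss := by rw [hτ]; field_simp
  have hτ0 : 0 < τ := by rw [hτ]; positivity
  have hLpos : (0 : ℝ) < L := by rw [hL]; positivity
  have hC0 : (0 : ℝ) ≤ C' := Nat.cast_nonneg _
  have h1 : (C' : ℝ) ≤ τ / 8 * Bm := by
    have : τ / 8 * (8 * C' * E0 : ℝ) ≤ τ / 8 * Bm := by gcongr
    have h2 : τ / 8 * (8 * C' * E0 : ℝ) = C' * (τ * E0) := by ring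
    rw [h2, hτE] at this
    nlinarith
  have h3 : (C' : ℝ) * (3 ^ m * (s / L)) ≤ τ / 8 := by
    have h4 : (C' : ℝ) * (3 ^ m * (s / L)) = (C' * 3 ^ m * s) / L := by ring
    rw [h4, div_le_iff₀ hLpos]
    have h5 : (C' * 3 ^ m * s : ℝ) ≤ C' * 3 ^ m * (ρ * ss) := by gcongr
    refine h5.trans ?_
    have h6 : (L : ℝ) = 8 * C' * 3 ^ m * ρ * E0 + 1 := by rw [hL]; push_cast; ring
    rw [h6]
    have h7 : τ / 8 * (8 * C' * 3 ^ m * ρ * E0 + 1 : ℝ) =
        C' * 3 ^ m * (ρ * (τ * E0)) + τ / 8 := by ring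
    rw [h7, hτE]
    linarith
  rw [div_le_iff₀ hBm0]
  have h8 : (C' : ℝ) * κ ≤ τ / 8 * Bm := by
    calc (C' : ℝ) * κ ≤ C' * (3 ^ m * Bm * (s / L)) := by gcongr
      _ = (C' * (3 ^ m * (s / L))) * Bm := by ring
      _ ≤ τ / 8 * Bm := by gcongr
  have h9 : Bm * h ≤ Bm * (s - τ) := by gcongr
  nlinarith [mul_pos hτ0 hBm0]

theorem decOfS (ι : Type) [Fintype ι] (I : Finset ι) (hI : I.Nonempty) (CI : ℕ)
    (hS : StmtS ι I) : StmtDec ι I CI := by
  obtain ⟨CS, HS⟩ := hS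
  intro M ρ E0 hM hE0
  set m := I.card with hm
  have hm1 : 1 ≤ m := Finset.card_pos.2 hI
  set C' : ℕ := CS + CI * CS + 3 * CI with hC'
  set L : ℕ := 8 * C' * 3 ^ m * ρ * E0 + 1 with hL
  set i0 : ℕ := 8 * C' * E0 with hi0
  set B : ℕ := (3 * (M * 3 ^ (i0 + L))) ^ m with hB
  refine ⟨CI * (CS * (B * ρ + 1) + 2), ?_⟩
  intro F _ _ hDD Y _ _ _ σ _ f hf ss hss hσ hreg
  have hq1 : 1 < qq F := one_lt_qq F
  have hq0 : 0 < qq F := qq_pos F
  have hE : (0 : ℝ) < E0 := by exact_mod_cast hE0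
  have hS1 : (1 : ℝ) ≤ ss := by exact_mod_cast hss
  have hfr : Module.finrank F (σ → F) = Fintype.card σ := Module.finrank_fintype_fun_eq_card F
  have hσr : (Fintype.card σ : ℝ) ≤ (ρ * ss : ℝ) := by exact_mod_cast hσ
  -- the pressure at `M`
  have hMm : (0 : ℝ) < (M : ℝ) ^ m := by
    have : (0 : ℝ) < M := by exact_mod_cast hM
    positivity
  have hhM : hh F I f M < (Fintype.card σ : ℝ) - (ss : ℝ) / E0 := by
    unfold Reg at hreg
    rw [not_le, ZU_eq_rpow hI hf M hM, Real.rpow_lt_rpow_left_iff hq1] at hreg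
    have h1 : (M : ℝ) ^ m * hh F I f M < ((Fintype.card σ : ℝ) - (ss : ℝ) / E0) * (M : ℝ) ^ m := by
      linarith
    rw [mul_comm] at h1
    exact lt_of_mul_lt_mul_right h1 hMm.le
  obtain ⟨i, hi1, hi2, hpig⟩ := pigeon hI hf M i0 L hM (by omega)
  set b : ℕ := M * 3 ^ i with hb
  have hb1 : 1 ≤ b := by
    rw [hb]; exact Nat.mul_pos hM (by positivity)
  have hhb : hh F I f b < (Fintype.card σ : ℝ) - (ss : ℝ) / E0 := by
    have h1 : hh F I f (3 ^ i * M) ≤ hh F I f M := hh_scale hI hf M (3 ^ i) hM (by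
      exact Nat.one_le_iff_ne_zero.2 (by positivity))
    rw [mul_comm] at h1
    exact lt_of_le_of_lt h1 hhM
  rw [hfr] at hpig
  have hh3 : hh F I f (3 * b) ≤ hh F I f b := hh_scale hI hf b 3 hb1 (by norm_num)
  set κ : ℝ := ((3 * b : ℕ) : ℝ) ^ m * (hh F I f b - hh F I f (3 * b)) with hκdef
  have hκ0 : 0 ≤ κ := mul_nonneg (by positivity) (by linarith)
  have hbR : (0 : ℝ) < (b : ℝ) := by exact_mod_cast hb1
  set Bm : ℝ := (b : ℝ) ^ m with hBm
  have hBm0 : 0 < Bm := by positivity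
  have h3b : ((3 * b : ℕ) : ℝ) ^ m = 3 ^ m * Bm := by
    rw [hBm]; push_cast; ring
  set g := blow I b f with hg
  have hgl : MLin F I g := blow_mlin hf b
  have hp0 : prob (fun yb : ι → (Fin b → Y) => g yb = 0) = (qq F) ^ (-(Bm * hh F I f b)) := by
    rw [hg, blow_prob hf b hb1, ZU_eq_rpow hI hf b hb1]
  have hp3 : ZU g 3 ≤ (qq F) ^ (-((3 : ℝ) ^ I.card * (Bm * hh F I f b)) + κ) := by
    rw [hg, blow_ZU hf b hb1, ZU_eq_rpow hI hf (3 * b) (by omega)]
    apply le_of_eq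
    congr 1
    rw [hκdef, h3b, ← hm]
    ring
  obtain ⟨E1, hE1, hpE1⟩ := HS F (Fin b → Y) (({i // i ∈ I} → Fin b) → (σ → F)) g hgl
    (Bm * hh F I f b) κ hκ0 hp0 hp3
  set a' : ℕ := ⌈(CS : ℝ) * (κ + 1)⌉₊ with ha'
  have ha1 : (CS : ℝ) * (κ + 1) ≤ a' := Nat.le_ceil _
  have ha2 : (a' : ℝ) ≤ (CS : ℝ) * (κ + 1) + 1 := (Nat.ceil_lt_add_one (by positivity)).le
  have hpa : (qq F)⁻¹ ^ a' ≤ prob (fun y : ι → (Fin b → Y) => g y ∈ E1) := by
    refine le_trans ?_ hpE1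
    rw [← Real.rpow_natCast, Real.inv_rpow hq0.le, ← Real.rpow_neg hq0.le]
    apply Real.rpow_le_rpow_of_exponent_le hq1.le
    linarith
  obtain ⟨E2, P, hE2, hPty, hPc, hPz⟩ := dd_mod hDD hgl E1 a' hpa
  have hbne : Nonempty (Fin b) := ⟨⟨0, hb1⟩⟩
  obtain ⟨α, hα⟩ := dz_small (F := F) (V := σ → F) (α := {i // i ∈ I} → Fin b) E2
  have hcard : (Fintype.card ({i // i ∈ I} → Fin b) : ℝ) = Bm := by
    rw [Fintype.card_fun, Fintype.card_fin, hBm, hm]
    push_cast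
    congr 1
    simp
  rw [hcard] at hα
  refine ⟨E2.comap (LinearMap.single F (fun _ : ({i // i ∈ I} → Fin b) => σ → F) α), ?_,
    dz_fam I α P (fun k => (hPty k).1), fun k => hPty k, ?_, ?_⟩
  · refine hα.trans ?_
    have hE2r : (Module.finrank F E2 : ℝ) ≤ Module.finrank F E1 + CI * (a' + 1) := by
      exact_mod_cast hE2
    refine dz_est C' L m ρ E0 ss (Fintype.card σ) (hh F I f b) (Module.finrank F E2) κ Bm hE0 hss
      hL hσr ?_ hBm0 ?_ hhb ?_
    · have h1 : i0 ≤ b ^ m := by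
        calc i0 ≤ i := hi1
          _ ≤ 3 ^ i := dz_pow3 i
          _ ≤ M * 3 ^ i := Nat.le_mul_of_pos_left _ hM
          _ = b := rfl
          _ ≤ b ^ m := Nat.le_self_pow (by omega) b
      rw [hBm]
      have h2 : ((8 * C' * E0 : ℕ) : ℝ) ≤ ((b ^ m : ℕ) : ℝ) := by exact_mod_cast h1
      push_cast at h2
      exact h2
    · rw [hκdef, h3b]
      gcongr
    · have h5 : (CI : ℝ) * (a' + 1) ≤ CI * (CS * (κ + 1) + 3) := by
        gcongr ?_ * ?_
        linarith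
      have h6 : (CS : ℝ) * (κ + 1) + CI * (CS * (κ + 1) + 3) ≤ C' * (κ + 1) := by
        have h7 : (C' : ℝ) = CS + CI * CS + 3 * CI := by rw [hC']; push_cast; ring
        rw [h7]
        have h8 : (0 : ℝ) ≤ 3 * CI * κ := by positivity
        nlinarith
      linarith
  · have h1 : (dz_fam I α P (fun k => (hPty k).1)).card = P.card := rfl
    rw [h1]
    refine hPc.trans ?_
    have hκle : κ ≤ (B * ρ : ℝ) * ss := by
      have hn := hh_nonneg (F := F) I f (3 * b)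
      have hl := hh_le hI hf b hb1
      rw [hfr] at hl
      have hb2 : ((3 * b : ℕ) : ℝ) ^ m ≤ (B : ℝ) := by
        have : (3 * b) ^ m ≤ B := by
          rw [hB, hb]
          gcongr
          norm_num
        exact_mod_cast this
      calc κ ≤ ((3 * b : ℕ) : ℝ) ^ m * (ρ * ss : ℝ) := by
            rw [hκdef]
            gcongr
            linarith
        _ ≤ (B : ℝ) * (ρ * ss : ℝ) := by gcongr
        _ = (B * ρ : ℝ) * ss := by ring
    have h2 : ((CI * (a' + 1) : ℕ) : ℝ) ≤ ((CI * (CS * (B * ρ + 1) + 2) * ss : ℕ) : ℝ) := by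
      push_cast
      have h3 : (a' : ℝ) + 1 ≤ (CS * (B * ρ + 1) + 2 : ℝ) * ss := by
        have h4 : (CS : ℝ) * (κ + 1) ≤ CS * ((B * ρ : ℝ) * ss + ss) := by
          gcongr
        nlinarith
      calc (CI : ℝ) * (a' + 1) ≤ CI * ((CS * (B * ρ + 1) + 2 : ℝ) * ss) := by gcongr
        _ = _ := by ring
    exact_mod_cast h2
  · intro y hy
    have hy' : plc I α y ∈ P.zer := hy
    have h1 := hPz _ hy'
    rw [hg, blow_plc hf hI α y] at h1
    exact h1

end PRAR
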